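import Pool.Agent.Helper669.Forcing

/-!
# MP_c87228: an atomless `σ`-ideal all of whose generic ultrafilters are Tukey-top

Let `U` be an ultrafilter on `ℕ` with a family of continuum many members all of whose infinite
subfamilies have an intersection outside `U` (Isbell). The ideal `I` on `ℕ × ℕ` consists of all `A`
such that only finitely many sections `{x : (x, k) ∈ A}` belong to `U`. The quotient is isomorphic
to `P(ω)/fin`, and every generic ultrafilter is Tukey-top in the extension.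

The forcing language is that of `Pool.Agent.Helper669.Forcing`: a sentence is the set of the
conditions which force it, and a name for a subset of a ground model set `X` is a map from `X`
to sets of conditions.
-/

open Set Cardinal

namespace Pool.Agent.Results.MP_c87228_lc.TukeyTopGeneric

open Pool.Agent.Helper669.Forcing

/-- An ideal on `X`: proper, contains the finite sets, closed under subsets and unions. -/
structure SetIdeal (X : Type) where
  /-- the members of the ideal -/
  mem : Set (Set X)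
  finite_mem : ∀ A : Set X, A.Finite → A ∈ mem
  subset_mem : ∀ A ∈ mem, ∀ B, B ⊆ A → B ∈ mem
  union_mem : ∀ A ∈ mem, ∀ B ∈ mem, A ∪ B ∈ mem
  univ_notMem : Set.univ ∉ mem

variable {X : Type}

/-- The positive sets, the conditions of the forcing `P(X)/I`. -/
def Pos (I : SetIdeal X) : Type := {A : Set X // A ∉ I.mem}

/-- `A ≤ B` iff `A \ B ∈ I`. -/
instance (I : SetIdeal X) : Preorder (Pos I) where
  le A B := A.1 \ B.1 ∈ I.mem
  le_refl A := I.finite_mem _ (by rw [sdiff_self]; exact finite_empty)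
  le_trans A B C h1 h2 := I.subset_mem _ (I.union_mem _ h1 _ h2) _ (by
    rintro x ⟨hA, hC⟩
    by_cases hB : x ∈ B.1
    · exact Or.inr ⟨hB, hC⟩
    · exact Or.inl ⟨hA, hB⟩)

/-- `I` is a `σ`-ideal in the sense of the problem: every `⊆`-decreasing sequence of positive sets
has a positive pseudo-intersection modulo `I`. -/
def SigmaIdeal (I : SetIdeal X) : Prop :=
  ∀ A : ℕ → Set X, (∀ n, A n ∉ I.mem) → (∀ n, A (n + 1) ⊆ A n) →
    ∃ B, B ∉ I.mem ∧ ∀ n, B \ A n ∈ I.mem

/-- Every positive set splits into two disjoint positive sets. -/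
def Atomless (I : SetIdeal X) : Prop :=
  ∀ A, A ∉ I.mem → ∃ B C, B ∉ I.mem ∧ C ∉ I.mem ∧ B ⊆ A ∧ C ⊆ A ∧ Disjoint B C

section Language

variable {P : Type} [Preorder P]

/-- `φ` iff `ψ`. -/
def fiff (φ ψ : Set P) : Set P := fand (fimp φ ψ) (fimp ψ φ)

/-- No new subsets of `ℕ`: every named subset `x` of `ℕ` is a ground model set. -/
def NoNewReals (P : Type) [Preorder P] : Set P :=
  fall fun x : ℕ → Set P => fex fun a : Set ℕ => fall fun n => fiff (meets (x n)) (fground (n ∈ a))

/-- The named family `W` of ground model subsets of `Y` is an ultrafilter on `Y` (with respect to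
the ground model subsets of `Y`). -/
def IsUltra {Y : Type} (W : Set Y → Set P) : Set P :=
  fand (fnot (meets (W ∅)))
    (fand (fall fun A => fall fun B => fimp (fand (meets (W A)) (meets (W B))) (meets (W (A ∩ B))))
      (fand (fall fun A => fall fun B => fall fun _ : A ⊆ B => fimp (meets (W A)) (meets (W B)))
        (fall fun A => fimp (fnot (meets (W A))) (meets (W Aᶜ)))))

/-- The named relation `F` is a function from the named family `G` to the named family `W`. -/
def IsMap {Y Z : Type} (G : Set Y → Set P) (W : Set Z → Set P) (F : Set Y → Set Z → Set P) :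
    Set P :=
  fand (fall fun B => fimp (meets (G B)) (fex fun A => meets (F B A)))
    (fand (fall fun B => fall fun A => fimp (meets (F B A)) (fand (meets (G B)) (meets (W A))))
      (fall fun B => fall fun A => fall fun A' =>
        fimp (fand (meets (F B A)) (meets (F B A'))) (fground (A = A'))))

/-- The named family `C` is a cofinal subset of `(G, ⊇)`. -/
def IsCof {Y : Type} (G C : Set Y → Set P) : Set P :=
  fand (fall fun B => fimp (meets (C B)) (meets (G B)))
    (fall fun B => fimp (meets (G B)) (fex fun B' => fand (meets (C B')) (fground (B' ⊆ B))))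

/-- The image of `C` under `F` is cofinal in `(W, ⊇)`. -/
def ImageCof {Y Z : Type} (W : Set Z → Set P) (F : Set Y → Set Z → Set P) (C : Set Y → Set P) :
    Set P :=
  fall fun A => fimp (meets (W A)) (fex fun B => fex fun A' =>
    fand (meets (C B)) (fand (meets (F B A')) (fground (A' ⊆ A))))

/-- `(W, ⊇) ≤_T (G, ⊇)`: some function from `G` to `W` sends every cofinal subset of `(G, ⊇)` to a
cofinal subset of `(W, ⊇)`. -/
def TukeyLE {Y Z : Type} (W : Set Z → Set P) (G : Set Y → Set P) : Set P :=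
  fex fun F : Set Y → Set Z → Set P => fand (IsMap G W F)
    (fall fun C : Set Y → Set P => fimp (IsCof G C) (ImageCof W F C))

/-- `G` is Tukey-top: `(W, ⊇) ≤_T (G, ⊇)` for every ultrafilter `W` on `ℕ`. (As no new subsets of
`ℕ` are added, an ultrafilter on `ℕ` is a family of ground model sets.) -/
def TukeyTop {Y : Type} (G : Set Y → Set P) : Set P :=
  fall fun W : Set ℕ → Set P => fimp (IsUltra W) (TukeyLE W G)

end Language

/-- The canonical name of the generic ultrafilter: `B ∈ G` iff the generic filter contains the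
condition `B`. -/
def generic (I : SetIdeal X) : Set X → Set (Pos I) := fun B => {p | p.1 = B}

/-! ### An Isbell family -/

theorem isbell : ∃ (U : Ultrafilter ℕ) (a : Set ℕ → Set ℕ), (∀ x, a x ∈ U) ∧
    (∀ n, {n} ∉ U) ∧
    ∀ J : Set (Set ℕ), J.Infinite → (⋂ x ∈ J, a x) ∉ U := by
  classical
  let D := Finset ℕ × Finset (Finset ℕ)
  obtain ⟨e⟩ : Nonempty (D ≃ ℕ) := nonempty_equiv_of_countable
  let tr : Set ℕ → Finset ℕ → Finset ℕ := fun x F => F.filter (fun n => n ∈ x)
  let b : Set ℕ → Set D := fun x => {d | tr x d.1 ∈ d.2}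
  -- separation
  have hsep : ∀ S : Finset (Set ℕ), ∃ F0 : Finset ℕ, ∀ F, F0 ⊆ F → ∀ x ∈ S, ∀ y ∈ S,
      tr x F = tr y F → x = y := by
    intro S
    have hch : ∀ x y : Set ℕ, ∃ n, x ≠ y → ¬ (n ∈ x ↔ n ∈ y) := by
      intro x y
      by_cases h : x = y
      · exact ⟨0, fun h' => absurd h h'⟩
      · by_contra hcon
        push Not at hcon
        refine h (Set.ext fun n => ?_)
        exact (hcon n).2
    choose ν hν using hch
    refine ⟨(S ×ˢ S).image (fun q => ν q.1 q.2), fun F hF x hx y hy h => ?_⟩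
    by_contra hne
    have h1 : ν x y ∈ F := hF (Finset.mem_image.mpr ⟨(x, y), Finset.mem_product.mpr ⟨hx, hy⟩, rfl⟩)
    apply hν x y hne
    have h2 := Finset.ext_iff.mp h (ν x y)
    simp only [tr, Finset.mem_filter, h1, true_and] at h2
    exact h2
  -- the generating family
  let gen : Set (Set D) := {A | (∃ x, A = b x) ∨ (∃ n, A = {n}ᶜ) ∨
    ∃ J : Set (Set ℕ), J.Infinite ∧ A = (⋂ x ∈ J, b x)ᶜ}
  have hne : (Filter.generate gen).NeBot := by
    rw [Filter.generate_neBot_iff]
    intro t ht htfin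
    -- split the finite family
    have key : ∀ t : Set (Set D), t.Finite → t ⊆ gen →
        ∃ (S : Finset (Set ℕ)) (N : Finset D) (R : Finset (Set (Set ℕ))),
          (∀ J ∈ R, J.Infinite) ∧
          (⋂ x ∈ S, b x) ∩ (⋂ n ∈ N, {n}ᶜ) ∩ (⋂ J ∈ R, (⋂ x ∈ J, b x)ᶜ) ⊆ ⋂₀ t := by
      intro t htfin
      induction t, htfin using Set.Finite.induction_on with
      | empty =>
        intro _
        exact ⟨∅, ∅, ∅, by simp, by simp⟩
      | @insert A t _ _ ih =>
        intro ht
        obtain ⟨S, N, R, hR, hsub⟩ := ih ((subset_insert _ _).trans ht)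
        rcases ht (mem_insert _ _) with ⟨x, rfl⟩ | ⟨n, rfl⟩ | ⟨J, hJ, rfl⟩
        · refine ⟨insert x S, N, R, hR, ?_⟩
          rintro d ⟨⟨h1, h2⟩, h3⟩
          rw [Finset.set_biInter_insert] at h1
          rw [sInter_insert]
          exact ⟨h1.1, hsub ⟨⟨h1.2, h2⟩, h3⟩⟩
        · refine ⟨S, insert n N, R, hR, ?_⟩
          rintro d ⟨⟨h1, h2⟩, h3⟩
          rw [Finset.set_biInter_insert] at h2
          rw [sInter_insert]
          exact ⟨h2.1, hsub ⟨⟨h1, h2.2⟩, h3⟩⟩
        · refine ⟨S, N, insert J R, ?_, ?_⟩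
          · intro J' hJ'
            rcases Finset.mem_insert.mp hJ' with rfl | h
            · exact hJ
            · exact hR _ h
          · rintro d ⟨⟨h1, h2⟩, h3⟩
            rw [Finset.set_biInter_insert] at h3
            rw [sInter_insert]
            exact ⟨h3.1, hsub ⟨⟨h1, h2⟩, h3.2⟩⟩
    obtain ⟨S, N, R, hR, hsub⟩ := key t htfin ht
    refine Set.Nonempty.mono hsub ?_
    -- pick a new index in each infinite set
    have hpick : ∀ J : Set (Set ℕ), ∃ y, J ∈ R → y ∈ J ∧ y ∉ S := by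
      intro J
      by_cases hJ : J ∈ R
      · obtain ⟨y, hy, hyS⟩ := (hR J hJ).exists_notMem_finset S
        exact ⟨y, fun _ => ⟨hy, hyS⟩⟩
      · exact ⟨∅, fun h => absurd h hJ⟩
    choose y hy using hpick
    obtain ⟨F0, hF0⟩ := hsep (S ∪ R.image y)
    -- a large finite set, larger than all the first coordinates in `N`
    obtain ⟨m, hm⟩ : ∃ m : ℕ, ∀ d ∈ N, m ∉ d.1 := by
      obtain ⟨m, hm⟩ := (N.biUnion fun d => d.1).exists_notMem
      exact ⟨m, fun d hd hmd => hm (Finset.mem_biUnion.mpr ⟨d, hd, hmd⟩)⟩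
    let F := insert m F0
    refine ⟨(F, S.image fun x => tr x F), ⟨?_, ?_⟩, ?_⟩
    · refine mem_iInter₂.mpr fun x hx => ?_
      exact Finset.mem_image.mpr ⟨x, hx, rfl⟩
    · refine mem_iInter₂.mpr fun n hn => ?_
      rintro rfl
      exact hm _ hn (Finset.mem_insert_self m F0)
    · refine mem_iInter₂.mpr fun J hJ => ?_
      intro hmem
      have h1 := mem_iInter₂.mp hmem (y J) (hy J hJ).1
      obtain ⟨x, hx, hxy⟩ := Finset.mem_image.mp (show tr (y J) F ∈ S.image fun x => tr x F from h1)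
      have h2 := hF0 F (Finset.subset_insert _ _) x (Finset.mem_union_left _ hx) (y J)
        (Finset.mem_union_right _ (Finset.mem_image.mpr ⟨J, hJ, rfl⟩)) hxy
      exact (hy J hJ).2 (h2 ▸ hx)
  let U0 : Ultrafilter D := Ultrafilter.of (Filter.generate gen)
  have hgen : ∀ A ∈ gen, A ∈ U0 := fun A hA =>
    Ultrafilter.of_le _ (Filter.mem_generate_of_mem hA)
  refine ⟨U0.map e, fun x => e '' b x, ?_, ?_, ?_⟩
  · intro x
    rw [Ultrafilter.mem_map, preimage_image_eq _ e.injective]
    exact hgen _ (Or.inl ⟨x, rfl⟩)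
  · intro n hn
    rw [Ultrafilter.mem_map] at hn
    have h1 := hgen {e.symm n}ᶜ (Or.inr (Or.inl ⟨_, rfl⟩))
    obtain ⟨d, hd1, hd2⟩ := Ultrafilter.nonempty_of_mem (Filter.inter_mem hn h1)
    apply hd2
    have : e d = n := hd1
    rw [← this]
    exact (e.symm_apply_apply d).symm
  · intro J hJ hmem
    rw [Ultrafilter.mem_map] at hmem
    have h1 := hgen (⋂ x ∈ J, b x)ᶜ (Or.inr (Or.inr ⟨J, hJ, rfl⟩))
    obtain ⟨d, hd1, hd2⟩ := Ultrafilter.nonempty_of_mem (Filter.inter_mem hmem h1)
    apply hd2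
    refine mem_iInter₂.mpr fun x hx => ?_
    obtain ⟨d', hd', heq⟩ := mem_iInter₂.mp hd1 x hx
    rwa [← e.injective heq]

/-! ### The ideal -/

section Ideal

variable (U : Ultrafilter ℕ)

/-- The set of the `k` such that the section of `A` at `k` belongs to `U`. -/
def sec (A : Set (ℕ × ℕ)) : Set ℕ := {k | {x | (x, k) ∈ A} ∈ U}

theorem sec_mono {A B : Set (ℕ × ℕ)} (h : A ⊆ B) : sec U A ⊆ sec U B := fun _ hk =>
  Filter.mem_of_superset hk fun _ hx => h hx

theorem sec_union (A B : Set (ℕ × ℕ)) : sec U (A ∪ B) = sec U A ∪ sec U B := by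
  ext k
  exact Ultrafilter.union_mem_iff

theorem sec_inter (A B : Set (ℕ × ℕ)) : sec U (A ∩ B) = sec U A ∩ sec U B := by
  ext k
  exact Filter.inter_mem_iff

theorem sec_compl (A : Set (ℕ × ℕ)) : sec U Aᶜ = (sec U A)ᶜ := by
  ext k
  exact Ultrafilter.compl_mem_iff_notMem

theorem sec_diff (A B : Set (ℕ × ℕ)) : sec U (A \ B) = sec U A \ sec U B := by
  rw [sdiff_eq, sec_inter, sec_compl, sdiff_eq]

theorem sec_univ : sec U Set.univ = Set.univ :=
  eq_univ_of_forall fun _ => Filter.univ_mem' fun _ => mem_univ _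

theorem nonprincipal_compl_mem (hU : ∀ n, {n} ∉ U) {S : Set ℕ} (hS : S.Finite) : S ∉ U := by
  intro h
  have h1 : (⋃ n ∈ S, ({n} : Set ℕ)) ∈ U := by
    rwa [biUnion_of_singleton]
  obtain ⟨n, _, hn⟩ := (Ultrafilter.finite_biUnion_mem_iff hS).mp h1
  exact hU n hn

/-- The ideal of all `A ⊆ ℕ × ℕ` with only finitely many sections in `U`. -/
def ideal (hU : ∀ n, {n} ∉ U) : SetIdeal (ℕ × ℕ) where
  mem := {A | (sec U A).Finite}
  finite_mem := by
    intro A hA
    have : sec U A = ∅ := by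
      rw [eq_empty_iff_forall_notMem]
      intro k hk
      refine nonprincipal_compl_mem U hU ?_ hk
      exact Set.Finite.preimage (fun x _ y _ h => (Prod.mk.inj h).1) hA
    change (sec U A).Finite
    rw [this]
    exact finite_empty
  subset_mem A hA B hB := hA.subset (sec_mono U hB)
  union_mem A hA B hB := by
    change (sec U (A ∪ B)).Finite
    rw [sec_union]
    exact hA.union hB
  univ_notMem := by
    intro h
    have h1 : (sec U Set.univ).Finite := h
    rw [sec_univ] at h1
    exact infinite_univ h1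

variable {U}

theorem mem_ideal {hU : ∀ n, {n} ∉ U} {A : Set (ℕ × ℕ)} :
    A ∈ (ideal U hU).mem ↔ (sec U A).Finite := Iff.rfl

/-- A descending sequence of conditions has a lower bound. -/
theorem closed_seq {hU : ∀ n, {n} ∉ U} (p : ℕ → Pos (ideal U hU)) (hp : ∀ n, p (n + 1) ≤ p n) :
    ∃ q, ∀ n, q ≤ p n := by
  classical
  -- finite intersections are positive
  let A : ℕ → Set (ℕ × ℕ) := fun n => ⋂ m ∈ Iic n, (p m).1
  have hanti : ∀ m n, m ≤ n → p n ≤ p m := fun m n h => antitone_nat_of_succ_le hp h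
  have hAp : ∀ n, ((sec U (p n).1) \ sec U (A n)).Finite := by
    intro n
    have hfin : ∀ m ∈ Iic n, ((sec U (p n).1) \ sec U (p m).1).Finite := by
      intro m hm
      rw [← sec_diff]
      exact hanti m n hm
    refine ((Set.finite_Iic n).biUnion hfin).subset ?_
    rintro k ⟨hk1, hk2⟩
    by_contra hcon
    apply hk2
    have : ∀ m ∈ Iic n, {x | (x, k) ∈ (p m).1} ∈ U := by
      intro m hm
      by_contra h
      exact hcon (mem_iUnion₂.mpr ⟨m, hm, hk1, h⟩)
    have h2 : (⋂ m ∈ Iic n, {x | (x, k) ∈ (p m).1}) ∈ U :=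
      (Filter.biInter_mem (Set.finite_Iic n)).mpr this
    change {x | (x, k) ∈ A n} ∈ U
    refine Filter.mem_of_superset h2 fun x hx => ?_
    refine mem_iInter₂.mpr fun m hm => ?_
    exact mem_iInter₂.mp hx m hm
  have hAinf : ∀ n, (sec U (A n)).Infinite := by
    intro n h
    refine (p n).2 ((h.union (hAp n)).subset fun k hk => ?_)
    by_cases hk' : k ∈ sec U (A n)
    · exact Or.inl hk'
    · exact Or.inr ⟨hk, hk'⟩
  -- an increasing sequence of indices
  have hex : ∀ n b, ∃ k, b < k ∧ k ∈ sec U (A n) := fun n b => by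
    obtain ⟨k, hk, hbk⟩ := (hAinf n).exists_gt b
    exact ⟨k, hbk, hk⟩
  choose nx hnx1 hnx2 using hex
  let k : ℕ → ℕ := fun n => Nat.rec (nx 0 0) (fun n r => nx (n + 1) r) n
  have hk2 : ∀ n, k n ∈ sec U (A n) := by
    intro n
    cases n with
    | zero => exact hnx2 0 0
    | succ n => exact hnx2 _ _
  have hkmono : StrictMono k := strictMono_nat_of_lt_succ fun n => hnx1 (n + 1) (k n)
  let B : Set (ℕ × ℕ) := {z | ∃ n, z.2 = k n ∧ z ∈ A n}
  have hsecB : ∀ n, k n ∈ sec U B := by
    intro n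
    change {x | (x, k n) ∈ B} ∈ U
    exact Filter.mem_of_superset (hk2 n) fun x hx => ⟨n, rfl, hx⟩
  have hB : B ∉ (ideal U hU).mem := by
    intro h
    exact (infinite_range_of_injective hkmono.injective)
      (Set.Finite.subset h (by rintro _ ⟨n, rfl⟩; exact hsecB n))
  refine ⟨⟨B, hB⟩, fun m => ?_⟩
  change (sec U (B \ (p m).1)).Finite
  refine ((Set.finite_Iio m).image k).subset ?_
  intro j hj
  obtain ⟨x, hx1, hx2⟩ := Ultrafilter.nonempty_of_mem (show {x | (x, j) ∈ B \ (p m).1} ∈ U from hj)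
  obtain ⟨n, hn, hxn⟩ := hx1
  refine ⟨n, ?_, hn.symm⟩
  by_contra hcon
  exact hx2 (mem_iInter₂.mp hxn m (show m ≤ n from not_lt.mp fun h => hcon h))

theorem sigmaIdeal (hU : ∀ n, {n} ∉ U) : SigmaIdeal (ideal U hU) := by
  intro A hA hdec
  obtain ⟨q, hq⟩ := closed_seq (hU := hU) (fun n => ⟨A n, hA n⟩) (fun n => by
    change A (n + 1) \ A n ∈ (ideal U hU).mem
    rw [sdiff_eq_empty.mpr (hdec n)]
    exact (ideal U hU).finite_mem _ finite_empty)
  exact ⟨q.1, q.2, hq⟩

theorem atomless (hU : ∀ n, {n} ∉ U) : Atomless (ideal U hU) := by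
  intro A hA
  have hinf : (sec U A).Infinite := hA
  let ι := hinf.natEmbedding
  let S1 : Set ℕ := range fun n => (ι (2 * n)).1
  let S2 : Set ℕ := range fun n => (ι (2 * n + 1)).1
  have hS : Disjoint S1 S2 := by
    rw [disjoint_left]
    rintro _ ⟨n, rfl⟩ ⟨m, hm⟩
    have := ι.injective (Subtype.ext hm)
    omega
  have hpos : ∀ S : Set ℕ, S.Infinite → S ⊆ sec U A → {z | z ∈ A ∧ z.2 ∈ S} ∉ (ideal U hU).mem := by
    intro S hSinf hSA h
    refine hSinf (Set.Finite.subset h fun k hk => ?_)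
    exact Filter.mem_of_superset (hSA hk) fun x hx => ⟨hx, hk⟩
  refine ⟨_, _, hpos S1 ?_ ?_, hpos S2 ?_ ?_, fun z hz => hz.1, fun z hz => hz.1, ?_⟩
  · refine infinite_range_of_injective fun a b hab => ?_
    have := ι.injective (Subtype.ext hab)
    omega
  · rintro _ ⟨n, rfl⟩
    exact (ι _).2
  · refine infinite_range_of_injective fun a b hab => ?_
    have := ι.injective (Subtype.ext hab)
    omega
  · rintro _ ⟨n, rfl⟩
    exact (ι _).2
  · rw [disjoint_left]
    rintro z ⟨_, hz1⟩ ⟨_, hz2⟩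
    exact disjoint_left.mp hS hz1 hz2

end Ideal

/-! ### Forcing -/

section ForcingFacts

variable {P : Type} [Preorder P]

theorem down_fiff (φ ψ : Set P) : Down (fiff φ ψ) := down_fand (down_fimp _ _) (down_fimp _ _)

/-- `meets N` is closed under conditions forced densely. -/
theorem meets_of_fimp {φ N : Set P} {p : P} (h : p ∈ fimp φ (meets N)) (hd : Down φ) (hp : p ∈ φ) :
    p ∈ meets N := by
  intro q hq
  obtain ⟨r, hr, hr'⟩ := mem_fimp.mp h q hq (hd p hp q hq)
  obtain ⟨r', hr1, hr2⟩ := hr' r le_rfl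
  exact ⟨r', hr1.trans hr, hr2⟩

theorem down_IsUltra {Y : Type} (W : Set Y → Set P) : Down (IsUltra W) :=
  down_fand (down_fnot _) (down_fand (down_fall fun _ => down_fall fun _ => down_fimp _ _)
    (down_fand (down_fall fun _ => down_fall fun _ => down_fall fun _ => down_fimp _ _)
      (down_fall fun _ => down_fimp _ _)))

theorem down_IsCof {Y : Type} (G C : Set Y → Set P) : Down (IsCof G C) :=
  down_fand (down_fall fun _ => down_fimp _ _) (down_fall fun _ => down_fimp _ _)

theorem down_IsMap {Y Z : Type} (G : Set Y → Set P) (W : Set Z → Set P)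
    (F : Set Y → Set Z → Set P) : Down (IsMap G W F) :=
  down_fand (down_fall fun _ => down_fimp _ _)
    (down_fand (down_fall fun _ => down_fall fun _ => down_fimp _ _)
      (down_fall fun _ => down_fall fun _ => down_fall fun _ => down_fimp _ _))

/-- Finitely many membership questions can be decided. -/
theorem decide_finite {Y : Type} (W : Set Y → Set P) (E : Set (Set Y)) (hE : E.Finite) (p : P) :
    ∃ q ≤ p, ∃ S, S ⊆ E ∧ (∀ w ∈ S, q ∈ meets (W w)) ∧ ∀ w ∈ E, w ∉ S → q ∈ fnot (meets (W w)) := by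
  classical
  induction E, hE using Set.Finite.induction_on with
  | empty => exact ⟨p, le_rfl, ∅, subset_rfl, by simp, by simp⟩
  | @insert w E _ _ ih =>
    obtain ⟨q, hq, S, hS, h1, h2⟩ := ih
    by_cases hw : q ∈ fnot (meets (W w))
    · by_cases hwS : w ∈ S
      · exact absurd (h1 w hwS) (hw q le_rfl)
      · refine ⟨q, hq, S, hS.trans (subset_insert _ _), h1, ?_⟩
        rintro v (rfl | hv) hvS
        · exact hw
        · exact h2 v hv hvS
    · simp only [fnot, mem_ofPred_eq, not_forall, not_not] at hw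
      obtain ⟨r, hr, hrw⟩ := hw
      refine ⟨r, hr.trans hq, insert w S, insert_subset_insert hS, ?_, ?_⟩
      · rintro v (rfl | hv)
        · exact hrw
        · exact down_meets _ _ (h1 v hv) _ hr
      · rintro v (rfl | hv) hvS
        · exact absurd (mem_insert _ _) hvS
        · exact down_fnot _ _ (h2 v hv fun h => hvS (mem_insert_of_mem _ h)) _ hr

/-- A finite intersection of members of a named ultrafilter is a member. -/
theorem sInter_mem {Y : Type} {W : Set Y → Set P} {p : P} (hW : p ∈ IsUltra W) (S : Set (Set Y))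
    (hS : S.Finite) (h : ∀ w ∈ S, p ∈ meets (W w)) : p ∈ meets (W (⋂₀ S)) := by
  induction S, hS using Set.Finite.induction_on with
  | empty =>
    rw [sInter_empty, ← compl_empty]
    exact meets_of_fimp (hW.2.2.2 ∅) (down_fnot _) hW.1
  | @insert w S _ _ ih =>
    rw [sInter_insert]
    exact meets_of_fimp (hW.2.1 w (⋂₀ S)) (down_fand (down_meets _) (down_meets _))
      ⟨h w (mem_insert _ _), ih fun v hv => h v (mem_insert_of_mem _ hv)⟩

end ForcingFacts

/-- A forcing notion in which descending sequences have lower bounds adds no new subsets of `ℕ`. -/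
theorem noNewReals {P : Type} [Preorder P]
    (hc : ∀ p : ℕ → P, (∀ n, p (n + 1) ≤ p n) → ∃ q, ∀ n, q ≤ p n) (p : P) :
    p ∈ NoNewReals P := by
  classical
  intro x
  rw [mem_fex]
  intro q _
  -- deciding one question
  have hstep : ∀ (n : ℕ) (r : P), ∃ r' ≤ r, r' ∈ meets (x n) ∨ r' ∈ fnot (meets (x n)) := by
    intro n r
    by_cases h : r ∈ fnot (meets (x n))
    · exact ⟨r, le_rfl, Or.inr h⟩
    · simp only [fnot, mem_ofPred_eq, not_forall, not_not] at h
      obtain ⟨r', hr', h'⟩ := h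
      exact ⟨r', hr', Or.inl h'⟩
  choose st hst1 hst2 using hstep
  let s : ℕ → P := fun n => Nat.rec (st 0 q) (fun n r => st (n + 1) r) n
  have hs1 : ∀ n, s (n + 1) ≤ s n := fun n => hst1 _ _
  have hs2 : ∀ n, s n ∈ meets (x n) ∨ s n ∈ fnot (meets (x n)) := by
    intro n
    cases n with
    | zero => exact hst2 0 q
    | succ n => exact hst2 _ _
  obtain ⟨r, hr⟩ := hc s hs1
  refine ⟨r, (hr 0).trans (hst1 _ _), {n | s n ∈ meets (x n)}, fun n => ?_⟩
  constructor
  · rw [mem_fimp]
    intro w hw hwx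
    refine ⟨w, le_rfl, ?_⟩
    rcases hs2 n with h | h
    · exact h
    · exact absurd hwx (h w (hw.trans (hr n)))
  · rw [mem_fimp]
    intro w hw hwa
    exact ⟨w, le_rfl, down_meets _ _ hwa _ (hw.trans (hr n))⟩

/-- Every generic ultrafilter is Tukey-top. -/
theorem tukeyTop {U : Ultrafilter ℕ} (hU : ∀ n, {n} ∉ U) {a : Set ℕ → Set ℕ} (ha : ∀ x, a x ∈ U)
    (hJ : ∀ J : Set (Set ℕ), J.Infinite → (⋂ x ∈ J, a x) ∉ U) (p : Pos (ideal U hU)) :
    p ∈ TukeyTop (generic (ideal U hU)) := by
  classical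
  set I := ideal U hU with hI
  let g : Set ℕ → Set (ℕ × ℕ) := fun w => {z | z.1 ∈ a w}
  have hsecg : ∀ w, sec U (g w) = Set.univ := fun w => eq_univ_of_forall fun k => ha w
  have hgpos : ∀ w, g w ∉ I.mem := by
    intro w h
    have h1 : (sec U (g w)).Finite := h
    rw [hsecg] at h1
    exact infinite_univ h1
  have hEfin : ∀ B, B ∉ I.mem → {w | B ⊆ g w}.Finite := by
    intro B hB
    by_contra hinf
    apply hB
    change (sec U B).Finite
    have : sec U B = ∅ := by
      rw [eq_empty_iff_forall_notMem]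
      intro k hk
      refine hJ _ hinf (Filter.mem_of_superset (show {x | (x, k) ∈ B} ∈ U from hk) ?_)
      intro x hx
      exact mem_iInter₂.mpr fun w hw => hw hx
    rw [this]
    exact finite_empty
  intro W
  rw [mem_fimp]
  intro q _ hqW
  let F : Set (ℕ × ℕ) → Set ℕ → Set (Pos I) := fun B A =>
    {r | r ∈ meets (generic I B) ∧ ∃ S, S ⊆ {w | B ⊆ g w} ∧ A = ⋂₀ S ∧ (∀ w ∈ S, r ∈ meets (W w)) ∧
      ∀ w ∈ {w | B ⊆ g w}, w ∉ S → r ∈ fnot (meets (W w))}
  have hFdown : ∀ B A, Down (F B A) := by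
    rintro B A r ⟨h0, S, hS, hA, h1, h2⟩ r' hr'
    exact ⟨down_meets _ _ h0 _ hr', S, hS, hA, fun w hw => down_meets _ _ (h1 w hw) _ hr',
      fun w hw hwS => down_fnot _ _ (h2 w hw hwS) _ hr'⟩
  -- positivity of members of the generic ultrafilter
  have hpos : ∀ B, ∀ r : Pos I, r ∈ meets (generic I B) → B ∉ I.mem := by
    intro B r hr
    obtain ⟨r', _, s, hs, _⟩ := hr r le_rfl
    have hs' : s.1 = B := hs
    rw [← hs']
    exact s.2
  -- totality
  have htot : ∀ B, ∀ r ≤ q, r ∈ meets (generic I B) → ∃ r' ≤ r, ∃ A, r' ∈ F B A := by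
    intro B r hr hrB
    obtain ⟨r', hr', S, hS, h1, h2⟩ := decide_finite W _ (hEfin B (hpos B r hrB)) r
    exact ⟨r', hr', ⋂₀ S, down_meets _ _ hrB _ hr', S, hS, rfl, h1, h2⟩
  have hmemW : ∀ B A, ∀ r ≤ q, r ∈ F B A → r ∈ meets (W A) := by
    rintro B A r hr ⟨h0, S, hS, rfl, h1, _⟩
    exact sInter_mem (down_IsUltra W _ hqW _ hr) S ((hEfin B (hpos B r h0)).subset hS) h1
  have hmeetsF : ∀ B A, ∀ r : Pos I, r ∈ meets (F B A) → ∀ r' ≤ r, ∃ r'' ≤ r', r'' ∈ F B A := by
    intro B A r hr r' hr'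
    obtain ⟨r'', h1, s, hs, h2⟩ := hr r' hr'
    exact ⟨r'', h1, hFdown B A s hs r'' h2⟩
  refine ⟨q, le_rfl, ?_⟩
  have hgmem : ∀ w, ∀ r : Pos I, r ∈ meets (generic I (g w)) := by
    intro w r
    refine meets_of_le (s := ⟨g w, hgpos w⟩) rfl ?_
    change (sec U (r.1 \ g w)).Finite
    rw [sec_diff, hsecg, sdiff_univ]
    exact finite_empty
  refine mem_fex_of_mem F (down_fand (down_IsMap _ _ _) (down_fall fun _ => down_fimp _ _)) ?_
  refine ⟨⟨?_, ?_, ?_⟩, ?_⟩
  · intro B
    rw [mem_fimp]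
    intro r hr hrB
    refine ⟨r, le_rfl, ?_⟩
    rw [mem_fex]
    intro r1 hr1
    obtain ⟨r', hr', A, hA⟩ := htot B r1 (hr1.trans hr) (down_meets _ _ hrB _ hr1)
    exact ⟨r', hr', A, meets_of_mem hA⟩
  · intro B A
    rw [mem_fimp]
    intro r hr hrF
    obtain ⟨r', hr', hF⟩ := hmeetsF B A r hrF r le_rfl
    exact ⟨r', hr', hF.1, hmemW B A r' (hr'.trans hr) hF⟩
  · intro B A A'
    rw [mem_fimp]
    rintro r hr ⟨hA, hA'⟩
    obtain ⟨r1, hr1, hF1⟩ := hmeetsF B A r hA r le_rfl
    obtain ⟨r2, hr2, hF2⟩ := hmeetsF B A' r hA' r1 hr1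
    refine ⟨r2, hr2.trans hr1, ?_⟩
    obtain ⟨_, S, hS, rfl, h1, h2⟩ := hFdown B A r1 hF1 r2 hr2
    obtain ⟨_, S', hS', rfl, h1', h2'⟩ := hF2
    have hSS : S = S' := by
      refine Subset.antisymm ?_ ?_
      · intro w hw
        by_contra hcon
        exact h2' w (hS hw) hcon r2 le_rfl (h1 w hw)
      · intro w hw
        by_contra hcon
        exact h2 w (hS' hw) hcon r2 le_rfl (h1' w hw)
    rw [hSS]
    exact rfl
  · intro C
    rw [mem_fimp]
    intro r hr hC
    refine ⟨r, le_rfl, ?_⟩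
    intro A
    rw [mem_fimp]
    intro r1 hr1 hr1A
    -- an element of `C` below `g A`
    obtain ⟨r2, hr2, hex⟩ := mem_fimp.mp (hC.2 (g A)) r1 hr1 (hgmem A r1)
    obtain ⟨r3, hr3, B, hB1, hB2⟩ := mem_fex.mp hex r2 le_rfl
    obtain ⟨r4, hr4, hB3⟩ := mem_fimp.mp (hC.1 B) r3 ((hr3.trans hr2).trans hr1) hB1
    obtain ⟨r5, hr5, A', hA'⟩ := htot B r4 ((((hr4.trans hr3).trans hr2).trans hr1).trans hr) hB3
    refine ⟨r5, ((hr5.trans hr4).trans hr3).trans hr2, ?_⟩
    refine mem_fex_of_mem B (down_fex _) (mem_fex_of_mem A'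
      (down_fand (down_meets _) (down_fand (down_meets _) (down_fground _))) ⟨?_, ?_, ?_⟩)
    · exact down_meets _ _ hB1 _ (hr5.trans hr4)
    · exact meets_of_mem hA'
    · obtain ⟨_, S, hS, rfl, h1, h2⟩ := hA'
      have hAS : A ∈ S := by
        by_contra hcon
        refine h2 A hB2 hcon r5 le_rfl (down_meets _ _ hr1A _ ?_)
        exact ((hr5.trans hr4).trans hr3).trans hr2
      exact sInter_subset_of_mem hAS

/-- **Main theorem** (positive answer to Q1). There is a proper `σ`-ideal `I` on the countable set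
`ℕ × ℕ`, containing the finite sets and with atomless quotient, such that every condition of
`P(ℕ × ℕ)/I` forces that no new subsets of `ℕ` are added and that the generic ultrafilter is
Tukey-top. -/
theorem result : ∃ I : SetIdeal (ℕ × ℕ), SigmaIdeal I ∧ Atomless I ∧
    ∀ p : Pos I, p ∈ NoNewReals (Pos I) ∧ p ∈ TukeyTop (generic I) := by
  obtain ⟨U, a, ha, hU, hJ⟩ := isbell
  refine ⟨ideal U hU, sigmaIdeal hU, atomless hU, fun p => ⟨?_, tukeyTop hU ha hJ p⟩⟩
  exact noNewReals closed_seq p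

end Pool.Agent.Results.MP_c87228_lc.TukeyTopGeneric
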